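import Pool.Agent.SemiringPieces.PartA
import Pool.Agent.SemiringPieces.Borel

/-!
# Partitions of the positive reals into Borel semirings

ZFC: a partition with more than one piece has only meagre, Lebesgue null pieces, and at least
`ℵ₁` of them.  If `cov(M) = 𝔠` or `cov(N) = 𝔠` (in particular under CH or MA) the dichotomy
(one piece or continuum many) holds.  If `ℝ` has a transcendence basis over `ℚ` that is the union
of `ℵ₁` pairwise disjoint compact sets (true in the iterated perfect set model), there is a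
partition into exactly `ℵ₁` pieces, so the dichotomy fails as soon as `ℵ₁ < 𝔠`.
-/

open Cardinal MeasureTheory Pool.Agent.SemiringPieces

namespace Pool.Agent.Results.MP_afbdfd_lc.Independence

theorem aleph_one_le {ι : Type} {B : ι → Set ℝ} (h : IsSemiringPartition B) (hc : #ι ≠ 1) :
    ℵ₁ ≤ #ι := by
  by_contra hlt
  have hle : #ι ≤ ℵ₀ := by
    have h2 : (ℵ₁ : Cardinal.{0}) = Order.succ ℵ₀ := Cardinal.succ_aleph0.symm
    rw [h2] at hlt
    exact Order.lt_succ_iff.1 (not_le.1 hlt)
  have hcount : Countable ι := Cardinal.mk_le_aleph0_iff.1 hle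
  have h1 := (partA h hc).1
  have h2 : IsMeagre (⋃ i, B i) := isMeagre_iUnion h1
  rw [h.union] at h2
  exact not_isMeagre_of_isOpen isOpen_Ioi ⟨1, by simp⟩ h2

theorem result :
    (∀ (ι : Type) (B : ι → Set ℝ), IsSemiringPartition B → #ι ≠ 1 →
      ℵ₁ ≤ #ι ∧ #ι ≤ 𝔠 ∧ (∀ i, IsMeagre (B i)) ∧ (∀ i, volume (B i) = 0)) ∧
    (CovMeagre ∨ CovNull → Dichotomy) ∧
    (CompactTransBasis →
      ∃ (ι : Type) (B : ι → Set ℝ), #ι = ℵ₁ ∧ IsSemiringPartition B) ∧
    (CompactTransBasis → (ℵ₁ : Cardinal.{0}) < 𝔠 → ¬ Dichotomy) :=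
  ⟨fun _ _ h hc => ⟨aleph_one_le h hc, card_le h, (partA h hc).1, (partA h hc).2⟩, partA',
    exists_partition, partB⟩

end Pool.Agent.Results.MP_afbdfd_lc.Independence
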